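import Mathlib
import Pool.Agent.Y224.OD.Stm

/-! OD-CLO: the operators commuting with a dense set. -/

set_option autoImplicit false

namespace Pool.Agent.Y388.OD

open Pool.Agent.Y224.OD Module TensorProduct

/-- expansion of an endomorphism in elementary ones -/
lemma expand {F V : Type} [Field F] [AddCommGroup V] [Module F V] {ι : Type} [Fintype ι]
    (b : Basis ι F V) (T : Module.End F V) :
    T = ∑ j, ∑ i, b.coord i (T (b j)) • (b.coord j).smulRight (b i) := by
  classical
  apply b.ext
  intro k
  rw [LinearMap.sum_apply, Finset.sum_eq_single k]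
  · rw [LinearMap.sum_apply]
    conv_lhs => rw [← b.sum_repr (T (b k))]
    apply Finset.sum_congr rfl
    intro i _
    rw [LinearMap.smul_apply, LinearMap.smulRight_apply, Basis.coord_apply, Basis.coord_apply,
      Basis.repr_self, Finsupp.single_eq_same, one_smul]
  · intro j _ hj
    rw [LinearMap.sum_apply]
    apply Finset.sum_eq_zero
    intro i _
    rw [LinearMap.smul_apply, LinearMap.smulRight_apply, Basis.coord_apply, Basis.coord_apply,
      Basis.repr_self, Finsupp.single_eq_of_ne hj, zero_smul, smul_zero]
  · intro h
    exact absurd (Finset.mem_univ k) h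

theorem t_clo : S_CLO := by
  intro ℓ _ V Γ K _ _ _ _ _ _ _ ρ hρ D Δ hD hΔ P hP
  -- the subspace of the endomorphisms commuting with `P`
  let A : Submodule ℚ_[ℓ] (Module.End ℚ_[ℓ] V) :=
    { carrier := {T | P * T.baseChange K = T.baseChange K * P}
      add_mem' := by
        intro S T hS hT
        change P * (S + T).baseChange K = (S + T).baseChange K * P
        have hS' : P * S.baseChange K = S.baseChange K * P := hS
        have hT' : P * T.baseChange K = T.baseChange K * P := hT
        rw [LinearMap.baseChange_add, mul_add, add_mul, hS', hT']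
      zero_mem' := by
        change P * (0 : Module.End ℚ_[ℓ] V).baseChange K = (0 : Module.End ℚ_[ℓ] V).baseChange K * P
        rw [LinearMap.baseChange_zero, mul_zero, zero_mul]
      smul_mem' := by
        intro c T hT
        change P * (c • T).baseChange K = (c • T).baseChange K * P
        have hT' : P * T.baseChange K = T.baseChange K * P := hT
        have hc : (c • T).baseChange K = (algebraMap ℚ_[ℓ] K c) • T.baseChange K := by
          rw [LinearMap.baseChange_smul, algebraMap_smul]
        rw [hc, mul_smul_comm, smul_mul_assoc, hT'] }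
  let b := Module.finBasis ℚ_[ℓ] V
  have hcont : ∀ lam : Module.Dual ℚ_[ℓ] (Module.End ℚ_[ℓ] V), Continuous fun g => lam (ρ g) := by
    intro lam
    have h1 : (fun g => lam (ρ g)) = fun g => ∑ j, ∑ i, b.coord i (ρ g (b j)) *
        lam ((b.coord j).smulRight (b i)) := by
      funext g
      conv_lhs => rw [expand b (ρ g)]
      rw [map_sum]
      apply Finset.sum_congr rfl
      intro j _
      rw [map_sum]
      apply Finset.sum_congr rfl
      intro i _
      rw [map_smul, smul_eq_mul]
    rw [h1]
    apply continuous_finsetSum
    intro j _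
    apply continuous_finsetSum
    intro i _
    exact (hρ (b j) (b.coord i)).mul continuous_const
  have hset : {g : Γ | ρ g ∈ A} = ⋂ lam : A.dualAnnihilator, {g : Γ | lam.1 (ρ g) = 0} := by
    ext g
    rw [Set.mem_iInter]
    constructor
    · intro hg lam
      exact (Submodule.mem_dualAnnihilator _).1 lam.2 _ hg
    · intro hg
      change ρ g ∈ A
      rw [← Subspace.forall_mem_dualAnnihilator_apply_eq_zero_iff]
      intro lam hlam
      exact hg ⟨lam, hlam⟩
  have hclosed : IsClosed {g : Γ | ρ g ∈ A} := by
    rw [hset]
    exact isClosed_iInter fun lam => isClosed_eq (hcont lam.1) continuous_const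
  have hsub : closure (Δ ∩ D) ⊆ {g : Γ | ρ g ∈ A} := by
    apply closure_minimal _ hclosed
    intro g hg
    exact hP g ⟨hg.2, hg.1⟩
  intro g hg
  exact hsub (hD.open_subset_closure_inter hΔ hg)

end Pool.Agent.Y388.OD
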