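import Mathlib
import Pool.Agent.Y224.OD.Stm

/-! OD-INT: an element of all valuation rings is integral. -/

set_option autoImplicit false

namespace Pool.Agent.Y388.OD

open Pool.Agent.Y224.OD

theorem t_int : S_INT := by
  intro K _ x h
  by_contra hx
  let R : Subring K := (integralClosure ℤ K).toSubring
  have hxR : x ∉ R := hx
  have hR : IsIntegrallyClosedIn R K :=
    inferInstanceAs (IsIntegrallyClosedIn (integralClosure ℤ K) K)
  obtain ⟨V, _, hV⟩ := Subring.exists_le_valuationSubring_of_isIntegrallyClosedIn hxR
  exact hV (h V)

end Pool.Agent.Y388.OD
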